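import Mathlib
import Pool.Agent.Lib_helper97.Ped

set_option autoImplicit false

/-!
# Congruences modulo 192 for partitions with distinct even parts
-/

namespace Pool.Agent.Results.MP_fab899_nt.PedMod192

/-- `ped n` is the number of partitions of `n` in which each even part occurs at most once. -/
def ped (n : ℕ) : ℕ :=
  (Finset.univ.filter
    (fun P : n.Partition => ∀ i ∈ P.parts, Even i → P.parts.count i ≤ 1)).card

lemma ped_eq (n : ℕ) : ped n = Pool.Agent.Lib97.pedN n := rfl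

/-- An inert prime divides both variables of `x² + 2 y²`. -/
lemma dvd_both (p : ℕ) [Fact p.Prime] (h2 : legendreSym p (-2) = -1) (x y : ℤ)
    (h : (p : ℤ) ∣ x ^ 2 + 2 * y ^ 2) : (p : ℤ) ∣ x ∧ (p : ℤ) ∣ y := by
  have h3 : ¬ IsSquare ((-2 : ℤ) : ZMod p) := (legendreSym.eq_neg_one_iff p).1 h2
  have h4 : ((x : ZMod p)) ^ 2 + 2 * (y : ZMod p) ^ 2 = 0 := by
    have := (ZMod.intCast_zmod_eq_zero_iff_dvd (x ^ 2 + 2 * y ^ 2) p).2 h
    push_cast at this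
    exact this
  have hy : (y : ZMod p) = 0 := by
    by_contra hy
    apply h3
    refine ⟨(x : ZMod p) / y, ?_⟩
    field_simp
    push_cast
    linear_combination -h4
  have hx : (x : ZMod p) = 0 := by
    rw [hy] at h4
    simpa using h4
  exact ⟨(ZMod.intCast_zmod_eq_zero_iff_dvd x p).1 hx, (ZMod.intCast_zmod_eq_zero_iff_dvd y p).1 hy⟩

/-- An inert prime cannot divide `x² + 2 y²` to an odd power. -/
lemma no_rep (p : ℕ) [Fact p.Prime] (h2 : legendreSym p (-2) = -1) (k : ℕ) (u : ℤ)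
    (hu : ¬ (p : ℤ) ∣ u) : ∀ x y : ℤ, x ^ 2 + 2 * y ^ 2 ≠ (p : ℤ) ^ (2 * k + 1) * u := by
  have hp0 : (p : ℤ) ≠ 0 := by exact_mod_cast (Fact.out : p.Prime).ne_zero
  induction k with
  | zero =>
    intro x y h
    obtain ⟨⟨x', rfl⟩, ⟨y', rfl⟩⟩ := dvd_both p h2 x y ⟨u, by rw [h]; ring⟩
    apply hu
    refine ⟨x' ^ 2 + 2 * y' ^ 2, ?_⟩
    apply mul_left_cancel₀ hp0
    linear_combination -h
  | succ k ih =>
    intro x y h
    obtain ⟨⟨x', rfl⟩, ⟨y', rfl⟩⟩ := dvd_both p h2 x y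
      ⟨(p : ℤ) ^ (2 * (k + 1)) * u, by rw [h]; ring⟩
    apply ih x' y'
    apply mul_left_cancel₀ (pow_ne_zero 2 hp0)
    linear_combination h

theorem dvd_ped (p : ℕ) [Fact p.Prime] (hp : 5 ≤ p) (h2 : legendreSym p (-2) = -1)
    (t : ℕ) (ht : 0 < t) (hcop : Nat.gcd t 6 = 1) (hpt : p ∣ t)
    (n j : ℕ) (hj1 : 1 ≤ j) (hj2 : j ≤ p - 1) :
    192 ∣ ped (9 * t ^ 2 * n + 9 * t ^ 2 * j / p + (57 * t ^ 2 - 1) / 8) := by
  have hpr : p.Prime := Fact.out
  obtain ⟨s, rfl⟩ := hpt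
  have hp0 : 0 < p := hpr.pos
  have hs0 : 0 < s := Nat.pos_of_mul_pos_right ht |> fun h => by
    rcases Nat.eq_zero_or_pos s with h | h
    · subst h; simp at ht
    · exact h
  set t := p * s with htdef
  -- `t² ≡ 1 (mod 24)`
  have ht24 : t ^ 2 % 24 = 1 := by
    have hodd : t % 2 = 1 := by
      by_contra h
      have : 2 ∣ t := by omega
      have := Nat.dvd_gcd this (by norm_num : 2 ∣ 6)
      rw [hcop] at this
      omega
    have h3 : t % 3 ≠ 0 := by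
      intro h
      have : 3 ∣ t := by omega
      have := Nat.dvd_gcd this (by norm_num : 3 ∣ 6)
      rw [hcop] at this
      omega
    have h24 : t % 24 = 1 ∨ t % 24 = 5 ∨ t % 24 = 7 ∨ t % 24 = 11 ∨ t % 24 = 13 ∨ t % 24 = 17 ∨
      t % 24 = 19 ∨ t % 24 = 23 := by omega
    rcases h24 with h | h | h | h | h | h | h | h <;> simp [Nat.pow_mod, h]
  obtain ⟨w, hw⟩ : ∃ w, t ^ 2 = 24 * w + 1 := ⟨t ^ 2 / 24, by omega⟩
  -- the argument of `ped`
  have e1 : 9 * t ^ 2 * j / p = 9 * (p * s ^ 2 * j) := by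
    rw [htdef]
    have : 9 * (p * s) ^ 2 * j = p * (9 * (p * s ^ 2 * j)) := by ring
    rw [this, Nat.mul_div_cancel_left _ hp0]
  have e2 : (57 * t ^ 2 - 1) / 8 = 9 * (19 * w) + 7 := by
    rw [hw]; omega
  have e3 : 9 * t ^ 2 * n + 9 * t ^ 2 * j / p + (57 * t ^ 2 - 1) / 8 =
      9 * (t ^ 2 * n + p * s ^ 2 * j + 19 * w) + 7 := by
    rw [e1, e2]; ring
  rw [e3, ped_eq]
  apply Pool.Agent.Lib97.dvd_of_no_rep
  rintro ⟨x, y, hxy⟩
  -- `24 N + 19 = p s² (p (24 n + 19) + 24 j)`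
  have e4 : (24 * (t ^ 2 * n + p * s ^ 2 * j + 19 * w) + 19 : ℤ) =
      p * s ^ 2 * (p * (24 * n + 19) + 24 * j) := by
    have hwZ : (t : ℤ) ^ 2 = 24 * w + 1 := by exact_mod_cast hw
    have : (t : ℤ) = p * s := by rw [htdef]; push_cast; ring
    rw [this] at hwZ ⊢
    linear_combination (-19 : ℤ) * hwZ
  -- write `s = p^a * s'`
  obtain ⟨a, s', hs', hsa⟩ := Nat.exists_eq_pow_mul_and_not_dvd hs0.ne' p hpr.ne_one
  have hndvd : ¬ (p : ℤ) ∣ (s' : ℤ) ^ 2 * (p * (24 * n + 19) + 24 * j) := by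
    intro h
    have hpZ : Prime (p : ℤ) := Nat.prime_iff_prime_int.1 hpr
    rcases hpZ.dvd_mul.1 h with h | h
    · have := hpZ.dvd_of_dvd_pow h
      exact hs' (by exact_mod_cast this)
    · have h5 : (p : ℤ) ∣ 24 * j := (dvd_add_right (dvd_mul_right _ _)).1 h
      have h6 : p ∣ 24 * j := by exact_mod_cast h5
      rcases hpr.dvd_mul.1 h6 with h7 | h7
      · have h8 : p ∣ 2 ^ 3 * 3 := by norm_num; exact h7
        rcases hpr.dvd_mul.1 h8 with h9 | h9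
        · have := Nat.le_of_dvd (by norm_num) (hpr.dvd_of_dvd_pow h9)
          omega
        · have := Nat.le_of_dvd (by norm_num) h9
          omega
      · have := Nat.le_of_dvd (by omega) h7
        omega
  apply no_rep p h2 a ((s' : ℤ) ^ 2 * (p * (24 * n + 19) + 24 * j)) hndvd (x : ℤ) (3 * (y : ℤ))
  have hxyZ : (x : ℤ) ^ 2 + 18 * (y : ℤ) ^ 2 =
      24 * (t ^ 2 * n + p * s ^ 2 * j + 19 * w) + 19 := by exact_mod_cast hxy
  have hsZ : (s : ℤ) = (p : ℤ) ^ a * s' := by exact_mod_cast hsa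
  rw [e4, hsZ] at hxyZ
  rw [show (x : ℤ) ^ 2 + 2 * (3 * (y : ℤ)) ^ 2 = (x : ℤ) ^ 2 + 18 * (y : ℤ) ^ 2 by ring, hxyZ]
  ring

/-- (1) The congruence of the question.
(2) A more general one: `192` divides `ped (9 N + 7)` for every `N` for which `24 N + 19` is not
of the form `x² + 18 y²`. -/
theorem result :
    (∀ (p : ℕ) [Fact p.Prime], 5 ≤ p → legendreSym p (-2) = -1 →
      ∀ t : ℕ, 0 < t → Nat.gcd t 6 = 1 → p ∣ t → ∀ n j : ℕ, 1 ≤ j → j ≤ p - 1 →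
      192 ∣ ped (9 * t ^ 2 * n + 9 * t ^ 2 * j / p + (57 * t ^ 2 - 1) / 8)) ∧
    (∀ N : ℕ, (¬ ∃ x y : ℕ, x ^ 2 + 18 * y ^ 2 = 24 * N + 19) → 192 ∣ ped (9 * N + 7)) := by
  refine ⟨fun p _ hp h2 t ht hcop hpt n j hj1 hj2 => dvd_ped p hp h2 t ht hcop hpt n j hj1 hj2,
    fun N hN => ?_⟩
  rw [ped_eq]
  exact Pool.Agent.Lib97.dvd_of_no_rep N hN

end Pool.Agent.Results.MP_fab899_nt.PedMod192
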